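import Mathlib

open MeasureTheory Set Metric
open scoped ENNReal Pointwise

namespace Pool.Agent.Results.MP_1453e0_an.KConvVsMMstar

/-- Symmetric convex body in `ℝⁿ`: compact, convex, with nonempty interior and `K = -K`. -/
structure IsSymmConvexBody {n : ℕ} (K : Set (EuclideanSpace ℝ (Fin n))) : Prop where
  convex : Convex ℝ K
  compact : IsCompact K
  interior_nonempty : (interior K).Nonempty
  symm : K = -K

/-- The normalized rotation invariant measure `σ` on the sphere `S^{n-1}`. -/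
noncomputable def sphereProb (n : ℕ) :
    Measure (sphere (0 : EuclideanSpace ℝ (Fin n)) 1) :=
  ((volume : Measure (EuclideanSpace ℝ (Fin n))).toSphere univ)⁻¹ •
    (volume : Measure (EuclideanSpace ℝ (Fin n))).toSphere

/-- `M(K) = ∫_{S^{n-1}} ‖x‖_K dσ(x)`, where `‖·‖_K` is the gauge of `K`. -/
noncomputable def M {n : ℕ} (K : Set (EuclideanSpace ℝ (Fin n))) : ℝ :=
  ∫ x : sphere (0 : EuclideanSpace ℝ (Fin n)) 1, gauge K (x : EuclideanSpace ℝ (Fin n))
    ∂(sphereProb n)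

/-- The polar body `K° = {y : ⟨x, y⟩ ≤ 1 for all x ∈ K}`. -/
def polarBody {n : ℕ} (K : Set (EuclideanSpace ℝ (Fin n))) : Set (EuclideanSpace ℝ (Fin n)) :=
  {y | ∀ x ∈ K, inner ℝ x y ≤ 1}

/-- `M*(K) = M(K°)`. -/
noncomputable def Mstar {n : ℕ} (K : Set (EuclideanSpace ℝ (Fin n))) : ℝ := M (polarBody K)

/-- The `MM*` product: the infimum over `T ∈ GL_n(ℝ)` of `M(TK) M*(TK)`. -/
noncomputable def MMstar {n : ℕ} (K : Set (EuclideanSpace ℝ (Fin n))) : ℝ :=
  ⨅ T : EuclideanSpace ℝ (Fin n) ≃ₗ[ℝ] EuclideanSpace ℝ (Fin n), M (T '' K) * Mstar (T '' K)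

/-- The norm of `f` in `L₂({-1,1}^m; X)`, where `N` is the norm function of `X`. -/
noncomputable def L2norm {V : Type*} (N : V → ℝ) (m : ℕ) (f : (Fin m → ℤˣ) → V) : ℝ :=
  √((2 ^ m : ℝ)⁻¹ * ∑ ε, N (f ε) ^ 2)

/-- The Rademacher projection `R_m f = ∑ᵢ εᵢ 𝔼[εᵢ f]`. -/
noncomputable def rademacherProj {V : Type*} [AddCommGroup V] [Module ℝ V] (m : ℕ)
    (f : (Fin m → ℤˣ) → V) : (Fin m → ℤˣ) → V :=
  fun ε => ∑ i, ((ε i : ℤ) : ℝ) • ((2 ^ m : ℝ)⁻¹ • ∑ δ, ((δ i : ℤ) : ℝ) • f δ)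

/-- The K-convexity constant `sup_m ‖R_m‖` of the space `V` normed by `N`; the norm of `R_m` is the
supremum of the `L₂` norm of `R_m f` over all `f` in the closed unit ball of `L₂({-1,1}^m; V)`. -/
noncomputable def kConvexityConst {V : Type*} [AddCommGroup V] [Module ℝ V] (N : V → ℝ) : ℝ≥0∞ :=
  ⨆ (m : ℕ) (f : (Fin m → ℤˣ) → V) (_ : L2norm N m f ≤ 1),
    ENNReal.ofReal (L2norm N m (rademacherProj m f))

/-! ### Moments of sums of signs -/

lemma sum_signs_succ (m : ℕ) (g : ℝ → ℝ) :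
    ∑ δ : Fin (m + 1) → ℤˣ, g (∑ i, ((δ i : ℤ) : ℝ)) =
      ∑ δ : Fin m → ℤˣ, (g (∑ i, ((δ i : ℤ) : ℝ) + 1) + g (∑ i, ((δ i : ℤ) : ℝ) - 1)) := by
  rw [← (Fin.consEquiv (fun _ : Fin (m + 1) => ℤˣ)).sum_comp, Fintype.sum_prod_type_right]
  refine Finset.sum_congr rfl fun δ _ => ?_
  simp only [Fin.consEquiv, Equiv.coe_fn_mk, Fin.sum_univ_succ, Fin.cons_zero, Fin.cons_succ]
  have : (Finset.univ : Finset ℤˣ) = {1, -1} := by decide
  rw [this, Finset.sum_pair (by decide)]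
  simp only [Units.val_one, Int.cast_one, Units.val_neg, Int.cast_neg]
  congr 2 <;> ring

lemma card_signs (m : ℕ) : (Finset.univ : Finset (Fin m → ℤˣ)).card = 2 ^ m := by
  simp [Finset.card_univ]

lemma sum_signs_sq (m : ℕ) :
    ∑ δ : Fin m → ℤˣ, (∑ i, ((δ i : ℤ) : ℝ)) ^ 2 = m * 2 ^ m := by
  induction m with
  | zero => simp
  | succ m ih =>
    rw [sum_signs_succ m (fun x => x ^ 2)]
    have : ∀ δ : Fin m → ℤˣ, ((∑ i, ((δ i : ℤ) : ℝ) + 1) ^ 2 + (∑ i, ((δ i : ℤ) : ℝ) - 1) ^ 2) =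
        2 * (∑ i, ((δ i : ℤ) : ℝ)) ^ 2 + 2 := fun δ => by ring
    simp only [this, Finset.sum_add_distrib, ← Finset.mul_sum, ih, Finset.sum_const, card_signs]
    push_cast
    ring

lemma sum_signs_four (m : ℕ) :
    ∑ δ : Fin m → ℤˣ, (∑ i, ((δ i : ℤ) : ℝ)) ^ 4 = (3 * m ^ 2 - 2 * m) * 2 ^ m := by
  induction m with
  | zero => simp
  | succ m ih =>
    rw [sum_signs_succ m (fun x => x ^ 4)]
    have : ∀ δ : Fin m → ℤˣ, ((∑ i, ((δ i : ℤ) : ℝ) + 1) ^ 4 + (∑ i, ((δ i : ℤ) : ℝ) - 1) ^ 4) =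
        2 * (∑ i, ((δ i : ℤ) : ℝ)) ^ 4 + 12 * (∑ i, ((δ i : ℤ) : ℝ)) ^ 2 + 2 := fun δ => by ring
    simp only [this, Finset.sum_add_distrib, ← Finset.mul_sum, ih, sum_signs_sq, Finset.sum_const,
      card_signs]
    push_cast
    ring

lemma abs_lower (s a : ℝ) (ha : 0 < a) : 2 * (s ^ 2 / a - s ^ 4 / a ^ 3) ≤ |s| := by
  have h : ∀ u : ℝ, 0 ≤ u → 2 * (u ^ 2 - u ^ 4) ≤ u := by
    intro u hu
    have h1 : 2 * (u - u ^ 3) ≤ 1 := by
      nlinarith [sq_nonneg (u - 1 / 2), mul_nonneg hu (sq_nonneg (u - 1 / 2)),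
        mul_nonneg hu (sq_nonneg (u - 5 / 9)), sq_nonneg (u - 5 / 9)]
    nlinarith
  have h2 := h (|s| / a) (by positivity)
  have h3 : (|s| / a) ^ 2 = s ^ 2 / a ^ 2 := by rw [div_pow, sq_abs]
  have h4 : (|s| / a) ^ 4 = s ^ 4 / a ^ 4 := by
    rw [div_pow]
    congr 1
    calc |s| ^ 4 = (|s| ^ 2) ^ 2 := by ring
      _ = s ^ 4 := by rw [sq_abs]; ring
  rw [h3, h4] at h2
  calc 2 * (s ^ 2 / a - s ^ 4 / a ^ 3) = (2 * (s ^ 2 / a ^ 2 - s ^ 4 / a ^ 4)) * a := by
        field_simp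
    _ ≤ (|s| / a) * a := mul_le_mul_of_nonneg_right h2 ha.le
    _ = |s| := by field_simp

lemma sum_signs_abs (m : ℕ) :
    4 / 9 * √m * 2 ^ m ≤ ∑ δ : Fin m → ℤˣ, |∑ i, ((δ i : ℤ) : ℝ)| := by
  rcases Nat.eq_zero_or_pos m with rfl | hm
  · simp
  have hm' : (0 : ℝ) < m := by exact_mod_cast hm
  have hs : 0 < √(m : ℝ) := Real.sqrt_pos.2 hm'
  have ha : 0 < 3 * √(m : ℝ) := by positivity
  have hsq : √(m : ℝ) * √(m : ℝ) = m := Real.mul_self_sqrt hm'.le
  calc 4 / 9 * √m * 2 ^ m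
      ≤ 2 * ((m * 2 ^ m) / (3 * √m) - ((3 * m ^ 2 - 2 * m) * 2 ^ m) / (3 * √m) ^ 3) := by
        have e1 : (m : ℝ) * 2 ^ m / (3 * √m) = √m / 3 * 2 ^ m := by
          field_simp
          nlinarith [hsq]
        have e2 : ((3 * (m : ℝ) ^ 2 - 2 * m) * 2 ^ m) / (3 * √m) ^ 3 ≤ √m / 9 * 2 ^ m := by
          rw [div_le_iff₀ (by positivity)]
          have : √(m : ℝ) / 9 * 2 ^ m * (3 * √(m : ℝ)) ^ 3 =
              3 * (√(m : ℝ) * √(m : ℝ)) ^ 2 * 2 ^ m := by ring
          rw [this, hsq]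
          have h2 : (0 : ℝ) < 2 ^ m := by positivity
          nlinarith
        rw [e1]
        nlinarith
    _ = ∑ δ : Fin m → ℤˣ, 2 * ((∑ i, ((δ i : ℤ) : ℝ)) ^ 2 / (3 * √m) -
          (∑ i, ((δ i : ℤ) : ℝ)) ^ 4 / (3 * √m) ^ 3) := by
        rw [← Finset.mul_sum, Finset.sum_sub_distrib, ← Finset.sum_div, ← Finset.sum_div,
          sum_signs_sq, sum_signs_four]
    _ ≤ _ := Finset.sum_le_sum fun δ _ => abs_lower _ _ ha

lemma sum_signs_abs_twist (m : ℕ) (ε : Fin m → ℤˣ) :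
    4 / 9 * √m * 2 ^ m ≤ ∑ δ : Fin m → ℤˣ, |∑ i, ((ε i : ℤ) : ℝ) * ((δ i : ℤ) : ℝ)| := by
  refine (sum_signs_abs m).trans_eq ?_
  refine Fintype.sum_equiv (Equiv.mulLeft ε) _ _ fun δ => ?_
  congr 1
  refine Finset.sum_congr rfl fun i _ => ?_
  simp only [Equiv.coe_mulLeft, Pi.mul_apply, Units.val_mul, Int.cast_mul]
  have : ((ε i : ℤ) : ℝ) * ((ε i : ℤ) : ℝ) = 1 := by
    rcases Int.units_eq_one_or (ε i) with h | h <;> simp [h]
  rw [← mul_assoc, this, one_mul]

/-! ### Choice of coordinates -/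

lemma exists_good_embedding {ι : Type*} [Fintype ι] {n : ℕ} [NeZero n]
    (e₀ : ι ↪ Fin n) (a : Fin n → ℝ) :
    ∃ e : ι ↪ Fin n, ∑ d, a (e d) ≤ Fintype.card ι * (∑ j, a j) / n := by
  have hn : (0 : ℝ) < n := by exact_mod_cast Nat.pos_of_ne_zero (NeZero.ne n)
  have key : ∑ c : Fin n, ∑ d, a (e₀ d + c) ≤ ∑ _c : Fin n, Fintype.card ι * (∑ j, a j) / n := by
    rw [Finset.sum_comm]
    have : ∀ d : ι, ∑ c : Fin n, a (e₀ d + c) = ∑ j, a j := fun d =>
      Equiv.sum_comp (Equiv.addLeft (e₀ d)) a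
    simp only [this, Finset.sum_const, Finset.card_univ, nsmul_eq_mul, Fintype.card_fin]
    exact le_of_eq (by field_simp)
  obtain ⟨c, -, hc⟩ := Finset.exists_le_of_sum_le (Finset.univ_nonempty) key
  exact ⟨e₀.trans (Equiv.addRight c).toEmbedding, hc⟩

/-! ### The body -/

variable {n : ℕ} {ι : Type*} [Fintype ι]

/-- The square of the norm of the example: `|x|² + (∑_{d} |x_{e d}|)²`. -/
noncomputable def Nsq (e : ι ↪ Fin n) (x : EuclideanSpace ℝ (Fin n)) : ℝ :=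
  ‖x‖ ^ 2 + (∑ d, |x (e d)|) ^ 2

/-- The norm of the example. -/
noncomputable def N (e : ι ↪ Fin n) (x : EuclideanSpace ℝ (Fin n)) : ℝ := √(Nsq e x)

lemma Nsq_nonneg (e : ι ↪ Fin n) (x : EuclideanSpace ℝ (Fin n)) : 0 ≤ Nsq e x := by
  unfold Nsq; positivity

lemma N_nonneg (e : ι ↪ Fin n) (x : EuclideanSpace ℝ (Fin n)) : 0 ≤ N e x := Real.sqrt_nonneg _

lemma N_sq (e : ι ↪ Fin n) (x : EuclideanSpace ℝ (Fin n)) : N e x ^ 2 = Nsq e x :=
  Real.sq_sqrt (Nsq_nonneg e x)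

lemma N_smul (e : ι ↪ Fin n) (r : ℝ) (x : EuclideanSpace ℝ (Fin n)) :
    N e (r • x) = |r| * N e x := by
  have h : Nsq e (r • x) = |r| ^ 2 * Nsq e x := by
    unfold Nsq
    simp only [norm_smul, Real.norm_eq_abs, PiLp.smul_apply, smul_eq_mul, abs_mul,
      ← Finset.mul_sum]
    ring
  rw [N, h, Real.sqrt_mul (by positivity), Real.sqrt_sq (abs_nonneg r), N]

lemma N_neg (e : ι ↪ Fin n) (x : EuclideanSpace ℝ (Fin n)) : N e (-x) = N e x := by
  have := N_smul e (-1) x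
  simpa using this

lemma N_add_le (e : ι ↪ Fin n) (x y : EuclideanSpace ℝ (Fin n)) :
    N e (x + y) ≤ N e x + N e y := by
  refine Real.sqrt_le_iff.2 ⟨add_nonneg (N_nonneg e x) (N_nonneg e y), ?_⟩
  set a := ∑ d, |x (e d)| with ha
  set b := ∑ d, |y (e d)| with hb
  have ha0 : 0 ≤ a := Finset.sum_nonneg fun _ _ => abs_nonneg _
  have hb0 : 0 ≤ b := Finset.sum_nonneg fun _ _ => abs_nonneg _
  have h1 : ‖x + y‖ ≤ ‖x‖ + ‖y‖ := norm_add_le x y
  have h2 : ∑ d, |(x + y) (e d)| ≤ a + b := by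
    rw [ha, hb, ← Finset.sum_add_distrib]
    exact Finset.sum_le_sum fun d _ => by simpa using abs_add_le (x (e d)) (y (e d))
  have h3 : 0 ≤ ∑ d, |(x + y) (e d)| := Finset.sum_nonneg fun _ _ => abs_nonneg _
  have h4 : Nsq e (x + y) ≤ (‖x‖ + ‖y‖) ^ 2 + (a + b) ^ 2 := by
    unfold Nsq
    gcongr
  have hx : N e x ^ 2 = ‖x‖ ^ 2 + a ^ 2 := N_sq e x
  have hy : N e y ^ 2 = ‖y‖ ^ 2 + b ^ 2 := N_sq e y
  have hcs : ‖x‖ * ‖y‖ + a * b ≤ N e x * N e y := by
    refine le_of_sq_le_sq ?_ (mul_nonneg (N_nonneg e x) (N_nonneg e y))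
    rw [mul_pow, hx, hy]
    nlinarith [sq_nonneg (‖x‖ * b - ‖y‖ * a)]
  nlinarith

lemma norm_le_N (e : ι ↪ Fin n) (x : EuclideanSpace ℝ (Fin n)) : ‖x‖ ≤ N e x :=
  Real.le_sqrt_of_sq_le (by unfold Nsq; nlinarith [sq_nonneg (∑ d, |x (e d)|)])

lemma l1_le_N (e : ι ↪ Fin n) (x : EuclideanSpace ℝ (Fin n)) : ∑ d, |x (e d)| ≤ N e x :=
  Real.le_sqrt_of_sq_le (by unfold Nsq; nlinarith [sq_nonneg ‖x‖])

lemma l1_sq_le (e : ι ↪ Fin n) (x : EuclideanSpace ℝ (Fin n)) :
    (∑ d, |x (e d)|) ^ 2 ≤ Fintype.card ι * ∑ d, x (e d) ^ 2 := by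
  have := sq_sum_le_card_mul_sum_sq (s := (Finset.univ : Finset ι)) (f := fun d => |x (e d)|)
  simpa [sq_abs, Finset.card_univ] using this

lemma sum_sq_le (e : ι ↪ Fin n) (x : EuclideanSpace ℝ (Fin n)) :
    ∑ d, x (e d) ^ 2 ≤ ‖x‖ ^ 2 := by
  rw [EuclideanSpace.norm_sq_eq]
  calc ∑ d, x (e d) ^ 2 = ∑ j ∈ Finset.univ.map e, x j ^ 2 := by rw [Finset.sum_map]
    _ ≤ ∑ j, x j ^ 2 := Finset.sum_le_sum_of_subset_of_nonneg (Finset.subset_univ _)
        fun _ _ _ => sq_nonneg _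
    _ = ∑ j, ‖x j‖ ^ 2 := by simp

lemma N_le (e : ι ↪ Fin n) (x : EuclideanSpace ℝ (Fin n)) :
    N e x ≤ √(1 + Fintype.card ι) * ‖x‖ := by
  have h : Nsq e x ≤ (1 + Fintype.card ι) * ‖x‖ ^ 2 := by
    have h1 := l1_sq_le e x
    have h2 := sum_sq_le e x
    have h3 : (Fintype.card ι : ℝ) * ∑ d, x (e d) ^ 2 ≤ Fintype.card ι * ‖x‖ ^ 2 := by gcongr
    unfold Nsq
    linarith
  calc N e x ≤ √((1 + Fintype.card ι) * ‖x‖ ^ 2) := Real.sqrt_le_sqrt h
    _ = _ := by rw [Real.sqrt_mul (by positivity), Real.sqrt_sq (norm_nonneg x)]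

/-- The body of the example. -/
def body (e : ι ↪ Fin n) : Set (EuclideanSpace ℝ (Fin n)) := {x | N e x ≤ 1}

lemma continuous_N (e : ι ↪ Fin n) : Continuous (N e) := by
  unfold N Nsq
  fun_prop

lemma body_subset (e : ι ↪ Fin n) : body e ⊆ closedBall 0 1 := fun x hx => by
  rw [mem_closedBall_zero_iff]
  exact (norm_le_N e x).trans hx

lemma isSymmConvexBody_body (e : ι ↪ Fin n) : IsSymmConvexBody (body e) where
  convex := by
    intro x hx y hy a b ha hb hab
    simp only [body, mem_ofPred_eq] at *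
    calc N e (a • x + b • y) ≤ N e (a • x) + N e (b • y) := N_add_le _ _ _
      _ = a * N e x + b * N e y := by rw [N_smul, N_smul, abs_of_nonneg ha, abs_of_nonneg hb]
      _ ≤ a * 1 + b * 1 := by gcongr
      _ = 1 := by rw [mul_one, mul_one, hab]
  compact := (isCompact_closedBall (0 : EuclideanSpace ℝ (Fin n)) 1).of_isClosed_subset
    (isClosed_le (continuous_N e) continuous_const) (body_subset e)
  interior_nonempty := by
    refine ⟨0, mem_interior_iff_mem_nhds.2 ?_⟩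
    have : N e 0 < 1 := by
      have := N_smul e 0 0
      simp only [smul_zero, abs_zero, zero_mul] at this
      rw [this]; exact one_pos
    exact Filter.mem_of_superset ((continuous_N e).continuousAt.eventually_lt
      continuousAt_const this) fun x hx => show N e x ≤ 1 from le_of_lt hx
  symm := by
    ext x
    simp [body, N_neg]

lemma mem_smul_body (e : ι ↪ Fin n) {r : ℝ} (hr : 0 < r) (x : EuclideanSpace ℝ (Fin n)) :
    x ∈ r • body e ↔ N e x ≤ r := by
  rw [mem_smul_set_iff_inv_smul_mem₀ hr.ne']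
  simp only [body, mem_ofPred_eq, N_smul, abs_inv, abs_of_pos hr]
  rw [inv_mul_le_iff₀ hr, mul_one]

lemma gauge_body (e : ι ↪ Fin n) (x : EuclideanSpace ℝ (Fin n)) : gauge (body e) x = N e x := by
  rw [gauge_def]
  apply le_antisymm
  · refine le_of_forall_gt_imp_ge_of_dense fun r hr => ?_
    have hr0 : 0 < r := (N_nonneg e x).trans_lt hr
    exact csInf_le ⟨0, fun s hs => hs.1.le⟩ ⟨hr0, (mem_smul_body e hr0 x).2 hr.le⟩
  · refine le_csInf ⟨N e x + 1, ?_⟩ ?_
    · have : 0 < N e x + 1 := by linarith [N_nonneg e x]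
      exact ⟨this, (mem_smul_body e this x).2 (by linarith)⟩
    · rintro r ⟨hr, hx⟩
      exact (mem_smul_body e hr x).1 hx

/-! ### The `MM*` estimate -/

lemma isProb (n : ℕ) [NeZero n] : IsProbabilityMeasure (sphereProb n) := by
  have h0 : (volume : Measure (EuclideanSpace ℝ (Fin n))).toSphere univ ≠ 0 := by
    rw [Measure.toSphere_apply_univ]
    refine mul_ne_zero ?_ (measure_ball_pos _ _ one_pos).ne'
    simp [NeZero.ne n]
  have h1 : (volume : Measure (EuclideanSpace ℝ (Fin n))).toSphere univ ≠ ∞ :=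
    measure_ne_top _ _
  exact ⟨by rw [sphereProb, Measure.smul_apply, smul_eq_mul, ENNReal.inv_mul_cancel h0 h1]⟩

lemma integrable_of_continuous (n : ℕ) [NeZero n]
    {f : sphere (0 : EuclideanSpace ℝ (Fin n)) 1 → ℝ} (hf : Continuous f) :
    Integrable f (sphereProb n) := by
  have := isProb n
  exact hf.integrable_of_hasCompactSupport (HasCompactSupport.of_compactSpace f)

lemma M_nonneg (K : Set (EuclideanSpace ℝ (Fin n))) : 0 ≤ M K :=
  integral_nonneg fun _ => gauge_nonneg _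

lemma MMstar_le (K : Set (EuclideanSpace ℝ (Fin n))) : MMstar K ≤ M K * Mstar K := by
  have h : BddBelow (range fun T : EuclideanSpace ℝ (Fin n) ≃ₗ[ℝ] EuclideanSpace ℝ (Fin n) =>
      M (T '' K) * Mstar (T '' K)) :=
    ⟨0, by rintro _ ⟨T, rfl⟩; exact mul_nonneg (M_nonneg _) (M_nonneg _)⟩
  have h2 := ciInf_le h (LinearEquiv.refl ℝ (EuclideanSpace ℝ (Fin n)))
  have h3 : (⇑(LinearEquiv.refl ℝ (EuclideanSpace ℝ (Fin n))) '' K) = K := by
    ext x; simp
  rw [h3] at h2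
  exact h2

lemma Mstar_le_one [NeZero n] (e : ι ↪ Fin n) : Mstar (body e) ≤ 1 := by
  have := isProb n
  calc Mstar (body e) ≤ ∫ _x : sphere (0 : EuclideanSpace ℝ (Fin n)) 1, (1 : ℝ)
        ∂(sphereProb n) := by
        refine integral_mono_of_nonneg (Filter.Eventually.of_forall fun _ => gauge_nonneg _)
          (integrable_const _) (Filter.Eventually.of_forall fun x => ?_)
        refine gauge_le_of_mem zero_le_one ?_
        rw [one_smul]
        intro y hy
        calc inner ℝ y (x : EuclideanSpace ℝ (Fin n)) ≤ ‖y‖ * ‖(x : EuclideanSpace ℝ (Fin n))‖ :=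
              real_inner_le_norm _ _
          _ ≤ 1 * 1 := by
              gcongr
              · exact mem_closedBall_zero_iff.1 (body_subset e hy)
              · exact (mem_sphere_zero_iff_norm.1 x.2).le
          _ = 1 := one_mul 1
    _ = 1 := by simp

lemma M_le [NeZero n] (e : ι ↪ Fin n)
    (he : (Fintype.card ι : ℝ) * ∑ d, (∫ x : sphere (0 : EuclideanSpace ℝ (Fin n)) 1,
      (x : EuclideanSpace ℝ (Fin n)) (e d) ^ 2 ∂(sphereProb n)) ≤ 1) :
    M (body e) ≤ √2 := by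
  have := isProb n
  have h2 : (0 : ℝ) < √2 := by positivity
  have hs : √2 * √2 = (2 : ℝ) := Real.mul_self_sqrt (by norm_num)
  have hint : ∀ j : Fin n, Integrable (fun x : sphere (0 : EuclideanSpace ℝ (Fin n)) 1 =>
      (x : EuclideanSpace ℝ (Fin n)) j ^ 2) (sphereProb n) := fun j =>
    integrable_of_continuous n (by fun_prop)
  calc M (body e) = ∫ x : sphere (0 : EuclideanSpace ℝ (Fin n)) 1,
        N e (x : EuclideanSpace ℝ (Fin n)) ∂(sphereProb n) := by
        simp only [M, gauge_body]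
    _ ≤ ∫ x : sphere (0 : EuclideanSpace ℝ (Fin n)) 1, ((3 / (2 * √2)) +
          (1 / (2 * √2)) * (Fintype.card ι * ∑ d, (x : EuclideanSpace ℝ (Fin n)) (e d) ^ 2))
            ∂(sphereProb n) := by
        refine integral_mono_of_nonneg (Filter.Eventually.of_forall fun _ => N_nonneg _ _)
          ?_ (Filter.Eventually.of_forall fun x => ?_)
        · exact integrable_of_continuous n (by fun_prop)
        · have hx : ‖(x : EuclideanSpace ℝ (Fin n))‖ = 1 := mem_sphere_zero_iff_norm.1 x.2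
          have h3 := N_sq e (x : EuclideanSpace ℝ (Fin n))
          have h4 := l1_sq_le e (x : EuclideanSpace ℝ (Fin n))
          rw [Nsq, hx] at h3
          have h5 : N e (x : EuclideanSpace ℝ (Fin n)) * (2 * √2) ≤
              3 + Fintype.card ι * ∑ d, (x : EuclideanSpace ℝ (Fin n)) (e d) ^ 2 := by
            nlinarith [sq_nonneg (N e (x : EuclideanSpace ℝ (Fin n)) - √2)]
          show N e (x : EuclideanSpace ℝ (Fin n)) ≤ _
          rw [← le_div_iff₀ (by positivity)] at h5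
          refine h5.trans_eq ?_
          ring
    _ = (3 / (2 * √2)) + (1 / (2 * √2)) * (Fintype.card ι *
          ∑ d, (∫ x : sphere (0 : EuclideanSpace ℝ (Fin n)) 1,
      (x : EuclideanSpace ℝ (Fin n)) (e d) ^ 2 ∂(sphereProb n))) := by
        rw [integral_add (integrable_const _), integral_const_mul, integral_const_mul,
          integral_finsetSum]
        · simp
        · intro d _; exact hint _
        · exact ((integrable_finsetSum _ fun d _ => hint (e d)).const_mul _).const_mul _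
    _ ≤ (3 / (2 * √2)) + (1 / (2 * √2)) * 1 := by gcongr
    _ = √2 := by
        field_simp
        nlinarith

/-! ### The K-convexity estimate -/

lemma kConv_body_ge (m : ℕ) (e : (Fin m → ℤˣ) ↪ Fin n) :
    ENNReal.ofReal (4 / 9 / √2 * √m) ≤ kConvexityConst (gauge (body e)) := by
  classical
  have h2 : (0 : ℝ) < √2 := by positivity
  have hs : √2 * √2 = (2 : ℝ) := Real.mul_self_sqrt (by norm_num)
  set f : (Fin m → ℤˣ) → EuclideanSpace ℝ (Fin n) :=
    fun ε => (√2)⁻¹ • EuclideanSpace.single (e ε) (1 : ℝ) with hf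
  have hN : ∀ ε, N e (f ε) = 1 := by
    intro ε
    have h1 : N e (EuclideanSpace.single (e ε) (1 : ℝ)) = √2 := by
      rw [N, Nsq]
      congr 1
      have : ∑ d, |(EuclideanSpace.single (e ε) (1 : ℝ) : EuclideanSpace ℝ (Fin n)) (e d)| = 1 := by
        rw [Finset.sum_eq_single ε]
        · simp
        · intro d _ hd
          simp [hd]
        · simp
      rw [this]
      simp
      norm_num
    rw [hf]
    simp only [N_smul, h1, abs_inv, abs_of_pos h2]
    exact inv_mul_cancel₀ h2.ne'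
  have hcard : ∑ _ε : Fin m → ℤˣ, (1 : ℝ) = 2 ^ m := by
    rw [Finset.sum_const, card_signs]; simp
  have hpow : (0 : ℝ) < 2 ^ m := by positivity
  have hf1 : L2norm (gauge (body e)) m f ≤ 1 := by
    rw [L2norm]
    simp only [gauge_body, hN, one_pow, hcard]
    rw [inv_mul_cancel₀ hpow.ne', Real.sqrt_one]
  have hR : ∀ ε, 4 / 9 / √2 * √m ≤ gauge (body e) (rademacherProj m f ε) := by
    intro ε
    rw [gauge_body]
    refine le_trans ?_ (l1_le_N e _)
    have hcoord : ∀ d, (rademacherProj m f ε) (e d) =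
        (√2)⁻¹ * ((2 ^ m : ℝ)⁻¹ * ∑ i, ((ε i : ℤ) : ℝ) * ((d i : ℤ) : ℝ)) := by
      intro d
      simp only [rademacherProj, hf, WithLp.ofLp_sum, WithLp.ofLp_smul, Finset.sum_apply,
        Pi.smul_apply, smul_eq_mul, PiLp.single_apply, EmbeddingLike.apply_eq_iff_eq,
        mul_ite, mul_one, mul_zero, Finset.sum_ite_eq, Finset.mem_univ, if_true]
      rw [Finset.mul_sum, Finset.mul_sum]
      refine Finset.sum_congr rfl fun i _ => ?_
      ring
    simp only [hcoord, abs_mul, abs_inv, abs_of_pos h2, abs_of_pos hpow]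
    rw [← Finset.mul_sum, ← Finset.mul_sum]
    have h := sum_signs_abs_twist m ε
    calc 4 / 9 / √2 * √m = (√2)⁻¹ * ((2 ^ m : ℝ)⁻¹ * (4 / 9 * √m * 2 ^ m)) := by
          field_simp
      _ ≤ _ := by gcongr
  refine le_iSup_of_le m (le_iSup_of_le f (le_iSup_of_le hf1 ?_))
  refine ENNReal.ofReal_le_ofReal ?_
  rw [L2norm]
  refine Real.le_sqrt_of_sq_le ?_
  have h0 : 0 ≤ 4 / 9 / √2 * √m := by positivity
  calc (4 / 9 / √2 * √m) ^ 2 = (2 ^ m : ℝ)⁻¹ * ∑ _ε : Fin m → ℤˣ, (4 / 9 / √2 * √m) ^ 2 := by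
        rw [Finset.sum_const, card_signs, nsmul_eq_mul]
        push_cast
        rw [← mul_assoc, inv_mul_cancel₀ hpow.ne', one_mul]
    _ ≤ _ := by
        gcongr with ε
        exact hR ε

lemma kConv_body_ge_one [NeZero n] (e : ι ↪ Fin n) :
    1 ≤ kConvexityConst (gauge (body e)) := by
  obtain ⟨x, hx⟩ : ∃ x : EuclideanSpace ℝ (Fin n), N e x = 1 := by
    set y : EuclideanSpace ℝ (Fin n) := EuclideanSpace.single 0 (1 : ℝ) with hy
    have h0 : 0 < N e y := by
      refine lt_of_lt_of_le ?_ (norm_le_N e y)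
      simp [hy]
    exact ⟨(N e y)⁻¹ • y, by rw [N_smul, abs_inv, abs_of_pos h0, inv_mul_cancel₀ h0.ne']⟩
  set f : (Fin 1 → ℤˣ) → EuclideanSpace ℝ (Fin n) := fun ε => ((ε 0 : ℤ) : ℝ) • x with hf
  have hcard : ∑ _ε : Fin 1 → ℤˣ, (1 : ℝ) = 2 ^ 1 := by
    rw [Finset.sum_const, card_signs]; simp
  have hsq : ∀ u : ℤˣ, ((u : ℤ) : ℝ) * ((u : ℤ) : ℝ) = 1 := by
    intro u
    rcases Int.units_eq_one_or u with h | h <;> simp [h]
  have habs : ∀ u : ℤˣ, |((u : ℤ) : ℝ)| = 1 := by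
    intro u
    rcases Int.units_eq_one_or u with h | h <;> simp [h]
  have hN : ∀ ε, gauge (body e) (f ε) = 1 := by
    intro ε
    rw [gauge_body, hf]
    simp only [N_smul, habs, hx, mul_one]
  have hL : L2norm (gauge (body e)) 1 f = 1 := by
    rw [L2norm]
    simp only [hN, one_pow, hcard]
    norm_num
  have hR : rademacherProj 1 f = f := by
    funext ε
    simp only [rademacherProj, hf, Fin.sum_univ_one, smul_smul, Fin.isValue, hsq, one_smul,
      Finset.sum_const, card_signs]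
    rw [← Nat.cast_smul_eq_nsmul ℝ, smul_smul]
    congr 1
    push_cast
    ring
  refine le_iSup_of_le 1 (le_iSup_of_le f (le_iSup_of_le hL.le ?_))
  rw [hR, hL, ENNReal.ofReal_one]

/-! ### The result -/

/-- For every dimension `n ≥ 1` there is a symmetric convex body `K ⊂ ℝⁿ` with `MM*(K) ≤ √2` and
`K(X_K) ≥ c √(log n)`, where `c > 0` is a universal constant. In particular no universal constant
`C` satisfies `K(X_K) ≤ C MM*(K)` for all symmetric convex bodies. -/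
theorem result : ∃ c : ℝ, 0 < c ∧ ∀ n : ℕ, 1 ≤ n →
    ∃ K : Set (EuclideanSpace ℝ (Fin n)), IsSymmConvexBody K ∧ MMstar K ≤ √2 ∧
      ENNReal.ofReal (c * √(Real.log n)) ≤ kConvexityConst (gauge K) := by
  refine ⟨1 / 6, by norm_num, fun n hn => ?_⟩
  have : NeZero n := ⟨by omega⟩
  have := isProb n
  have hn0 : (0 : ℝ) < n := by exact_mod_cast hn
  set m := Nat.log 4 n with hm
  have h4 : 4 ^ m ≤ n := Nat.pow_log_le_self 4 (by omega)
  have h4' : n < 4 ^ (m + 1) := Nat.lt_pow_succ_log_self (by norm_num) n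
  have hcardι : Fintype.card (Fin m → ℤˣ) = 2 ^ m := by
    rw [← Finset.card_univ, card_signs]
  have h2 : 2 ^ m ≤ n := le_trans (Nat.pow_le_pow_left (by norm_num) m) h4
  obtain ⟨e₀⟩ : Nonempty ((Fin m → ℤˣ) ↪ Fin n) :=
    Function.Embedding.nonempty_of_card_le (by rw [hcardι, Fintype.card_fin]; exact h2)
  obtain ⟨e, he⟩ := exists_good_embedding e₀
    (fun j => ∫ x : sphere (0 : EuclideanSpace ℝ (Fin n)) 1,
      (x : EuclideanSpace ℝ (Fin n)) j ^ 2 ∂(sphereProb n))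
  have htot : ∑ j, (∫ x : sphere (0 : EuclideanSpace ℝ (Fin n)) 1,
      (x : EuclideanSpace ℝ (Fin n)) j ^ 2 ∂(sphereProb n)) = 1 := by
    rw [← integral_finsetSum _ fun j _ => integrable_of_continuous n (by fun_prop)]
    have : ∀ x : sphere (0 : EuclideanSpace ℝ (Fin n)) 1,
        ∑ j, (x : EuclideanSpace ℝ (Fin n)) j ^ 2 = 1 := by
      intro x
      have hx : ‖(x : EuclideanSpace ℝ (Fin n))‖ = 1 := mem_sphere_zero_iff_norm.1 x.2
      have := EuclideanSpace.norm_sq_eq (x : EuclideanSpace ℝ (Fin n))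
      rw [hx] at this
      simpa using this.symm
    simp only [this]
    simp
  rw [htot, hcardι] at he
  refine ⟨body e, isSymmConvexBody_body e, ?_, ?_⟩
  · have hM : M (body e) ≤ √2 := by
      refine M_le e ?_
      rw [hcardι]
      have h22 : (2 : ℝ) ^ m * 2 ^ m = 4 ^ m := by
        rw [← mul_pow]; norm_num
      have h44 : (4 : ℝ) ^ m ≤ n := by exact_mod_cast h4
      calc ((2 ^ m : ℕ) : ℝ) * _ ≤ ((2 ^ m : ℕ) : ℝ) * (((2 ^ m : ℕ) : ℝ) * 1 / n) := by
            gcongr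
        _ = (4 : ℝ) ^ m / n := by
            push_cast
            rw [← h22]; ring
        _ ≤ 1 := by rw [div_le_one hn0]; exact h44
    calc MMstar (body e) ≤ M (body e) * Mstar (body e) := MMstar_le _
      _ ≤ √2 * 1 := by
          gcongr
          · exact M_nonneg _
          · exact Mstar_le_one e
      _ = √2 := mul_one _
  · have hlog4 : Real.log 4 ≤ 1.3864 := by
      have : Real.log 4 = 2 * Real.log 2 := by
        rw [show (4 : ℝ) = 2 ^ 2 by norm_num, Real.log_pow]; norm_num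
      rw [this]
      have := Real.log_two_lt_d9
      linarith
    have hlog : Real.log n ≤ (m + 1) * 1.3864 := by
      have h1 : (n : ℝ) ≤ 4 ^ (m + 1) := by exact_mod_cast h4'.le
      calc Real.log n ≤ Real.log (4 ^ (m + 1)) := Real.log_le_log hn0 h1
        _ = (m + 1) * Real.log 4 := by rw [Real.log_pow]; push_cast; ring
        _ ≤ _ := by gcongr
    rcases Nat.eq_zero_or_pos m with h0 | hmpos
    · refine le_trans ?_ (kConv_body_ge_one e)
      rw [← ENNReal.ofReal_one]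
      refine ENNReal.ofReal_le_ofReal ?_
      have : √(Real.log n) ≤ √(6 ^ 2) := by
        refine Real.sqrt_le_sqrt ?_
        rw [h0] at hlog
        norm_num at hlog
        norm_num
        linarith
      rw [Real.sqrt_sq (by norm_num)] at this
      linarith
    · refine le_trans (ENNReal.ofReal_le_ofReal ?_) (kConv_body_ge m e)
      have hm1 : (1 : ℝ) ≤ m := by exact_mod_cast hmpos
      have hs2 : √2 * √2 = (2 : ℝ) := Real.mul_self_sqrt (by norm_num)
      have hs20 : (0 : ℝ) < √2 := by positivity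
      refine le_of_sq_le_sq ?_ (by positivity)
      have hlog0 : 0 ≤ Real.log n := Real.log_nonneg (by exact_mod_cast hn)
      have h8 : (4 / 9 / √2) ^ 2 = (8 / 81 : ℝ) := by
        rw [div_pow, sq (√2), hs2]; norm_num
      rw [mul_pow, Real.sq_sqrt hlog0, mul_pow, Real.sq_sqrt (by positivity), h8]
      linarith

end Pool.Agent.Results.MP_1453e0_an.KConvVsMMstar
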